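import Pool.Agent.Helper96.LC.Stmts

/-! # Row LIM of the sheet `Pool.Agent.Helper96.LC.Stmts` (from STEER and BLK) -/

set_option linter.all false

namespace Pool.Agent.Helper96.LC.LimAux
open Pool.Agent.Helper44.Lag

variable (p q : ℕ) (t : ℝ)

lemma RR_of_path (hp : 0 < p) (ht : (q : ℝ) ≤ t * (p - q)) {u v : ℤ}
    (h : Relation.ReflTransGen (Stp p q) u v) : ∃ l, RR p q t u v l := by
  induction h with
  | refl => exact ⟨0, RR_refl p q t u⟩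
  | @tail b c _ h2 ih =>
    obtain ⟨l, hl⟩ := ih
    refine ⟨l + 1, RR_trans p q t hl (RR_step p q t hp ?_)⟩
    unfold Stp at h2
    have h3 : ((|(q:ℤ) * c - p * b| : ℤ) : ℝ) ≤ ((q : ℤ) : ℝ) := by exact_mod_cast h2
    push_cast at h3 ⊢
    linarith

lemma stage (hS : ST_STEER) (hB : ST_BLK) (hq : 0 < q) (hcop : Nat.Coprime p q) (hpq : 4 * q ≤ p)
    {τ : ℝ} (hτ0 : 0 < τ) (hτ : (q : ℝ) ≤ τ * (p - q)) (hτt : τ ≤ t) (ht : t ≤ 1 / 4)
    (hG : Good p q t) (u : ℤ) (δ : ℝ) (hδ : 0 < δ) (hδ8 : δ ≤ 1 / 8) :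
    ∃ v : ℤ, ∃ l : ℕ, 1 ≤ l ∧ ∀ x : ℝ, |x - v| ≤ τ → |((q:ℝ)/p)^l * x - u| ≤ τ ∧
      (∀ j ≤ l, nn (((q:ℝ)/p)^j * x) ≤ t + 2 * δ) ∧
      ∃ j ≤ l, t - 2 * δ ≤ nn (((q:ℝ)/p)^j * x) := by
  obtain ⟨Λ, ρ, hΛ, hρ⟩ := hB p q τ t δ hq hcop hpq hτ0 hτt ht hδ hδ8 (hG δ hδ)
  obtain ⟨v0, hpath, hv0⟩ := hS p q hq hcop hpq Λ u ρ
  obtain ⟨l0, hl0⟩ := RR_of_path p q τ (by omega) hτ hpath
  obtain ⟨v', hv'⟩ := hρ v0 hv0
  refine ⟨v', l0 + Λ, by omega, fun x hx => ?_⟩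
  obtain ⟨h1, h2, j, hj, h3⟩ := hv' x hx
  obtain ⟨h4, h5⟩ := hl0 _ h1
  refine ⟨by rw [pow_add, mul_assoc]; exact h4, ?_, j, by omega, h3⟩
  intro j hj
  by_cases hjm : j ≤ Λ
  · exact h2 j hjm
  · have := h5 (j - Λ) (by omega)
    rw [← mul_assoc, ← pow_add, show j - Λ + Λ = j by omega] at this
    linarith

theorem lim (hS : ST_STEER) (hB : ST_BLK) (hq : 0 < q) (hcop : Nat.Coprime p q) (hpq : 4 * q ≤ p)
    (ht3 : (q : ℝ) ≤ t * (p - q)) (ht : t ≤ 1 / 4) (hG : Good p q t) :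
    ∃ ξ : ℝ, Filter.limsup (fun n : ℕ => nn (ξ * ((p:ℝ)/q)^n)) Filter.atTop = t := by
  have hq0 : (0:ℝ) < q := by exact_mod_cast hq
  have hp : 0 < p := by omega
  have hp0 : (0:ℝ) < p := by exact_mod_cast hp
  have hpq' : (4 : ℝ) * q ≤ p := by exact_mod_cast hpq
  have hpq0 : (0:ℝ) < (p:ℝ) - q := by linarith
  set τ : ℝ := (q:ℝ) / ((p:ℝ) - q) with hτdef
  have hτ0 : 0 < τ := by positivity
  have hτ : (q:ℝ) ≤ τ * ((p:ℝ) - q) := by rw [hτdef, div_mul_cancel₀ _ hpq0.ne']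
  have hτt : τ ≤ t := by rw [hτdef, div_le_iff₀ hpq0]; exact ht3
  let dl : ℕ → ℝ := fun i => 1 / (8 * ((i:ℝ) + 1))
  have hdl0 : ∀ i, 0 < dl i := fun i => by simp only [dl]; positivity
  have hdl8 : ∀ i, dl i ≤ 1 / 8 := fun i => by
    simp only [dl]
    apply one_div_le_one_div_of_le (by norm_num)
    have : (0:ℝ) ≤ i := Nat.cast_nonneg i
    linarith
  have hdlm : ∀ i j : ℕ, i ≤ j → dl j ≤ dl i := fun i j hij => by
    simp only [dl]
    apply one_div_le_one_div_of_le (by positivity)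
    have : (i:ℝ) ≤ j := by exact_mod_cast hij
    linarith
  have hst : ∀ u : ℤ, ∀ i : ℕ, ∃ v : ℤ, ∃ l : ℕ, 1 ≤ l ∧ ∀ x : ℝ, |x - v| ≤ τ →
      |((q:ℝ)/p)^l * x - u| ≤ τ ∧ (∀ j ≤ l, nn (((q:ℝ)/p)^j * x) ≤ t + 2 * dl i) ∧
      ∃ j ≤ l, t - 2 * dl i ≤ nn (((q:ℝ)/p)^j * x) :=
    fun u i => stage p q t hS hB hq hcop hpq hτ0 hτ hτt ht hG u _ (hdl0 i) (hdl8 i)
  choose V Lg h1 h2 using hst
  let s : ℕ → ℤ × ℕ := fun i => Nat.rec (0, 0) (fun i s => (V s.1 i, s.2 + Lg s.1 i)) i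
  have hs : ∀ i, s (i+1) = (V (s i).1 i, (s i).2 + Lg (s i).1 i) := fun i => rfl
  set α : ℝ := (p:ℝ)/q with hα
  have hα0 : 0 < α := by positivity
  have hqp : (q:ℝ)/p = α⁻¹ := by rw [hα, inv_div]
  let I : ℕ → Set ℝ := fun i => {ξ | |ξ * α ^ (s i).2 - (s i).1| ≤ τ}
  have hback : ∀ (ξ : ℝ) (m j : ℕ), j ≤ m → ((q:ℝ)/p)^j * (ξ * α ^ m) = ξ * α ^ (m - j) := by
    intro ξ m j hj
    rw [hqp, inv_pow, pow_sub₀ _ hα0.ne' hj]; ring
  have hnest : ∀ i, I (i+1) ⊆ I i := by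
    intro i ξ hξ
    have hξ' : |ξ * α ^ (s (i+1)).2 - (s (i+1)).1| ≤ τ := hξ
    rw [hs] at hξ'
    have h5 := (h2 (s i).1 i _ hξ').1
    rw [hback _ _ _ (Nat.le_add_left _ _), Nat.add_sub_cancel] at h5
    exact h5
  have hcl : ∀ i, IsClosed (I i) := fun i => isClosed_le (by fun_prop) continuous_const
  have hne : ∀ i, (I i).Nonempty := by
    intro i
    refine ⟨(s i).1 / α ^ (s i).2, ?_⟩
    show |(s i).1 / α ^ (s i).2 * α ^ (s i).2 - ((s i).1:ℝ)| ≤ τ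
    rw [div_mul_cancel₀ _ (by positivity), sub_self, abs_zero]; exact hτ0.le
  have hcpt : IsCompact (I 0) := by
    have : I 0 = Set.Icc (-τ) τ := by
      ext ξ
      show |ξ * α ^ 0 - ((0:ℤ):ℝ)| ≤ τ ↔ _
      simp [abs_le]
    rw [this]; exact isCompact_Icc
  obtain ⟨ξ, hξ⟩ :=
    IsCompact.nonempty_iInter_of_sequence_nonempty_isCompact_isClosed I hnest hne hcpt hcl
  rw [Set.mem_iInter] at hξ
  refine ⟨ξ, ?_⟩
  have hup : ∀ i0 k, ∀ n, (s i0).2 ≤ n → n ≤ (s (i0 + k)).2 →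
      nn (ξ * α ^ n) ≤ t + 2 * dl i0 := by
    intro i0 k
    induction k with
    | zero =>
      intro n hn1 hn2
      have hn : n = (s i0).2 := le_antisymm hn2 hn1
      subst hn
      have h5 : |ξ * α ^ (s i0).2 - (s i0).1| ≤ τ := hξ i0
      have := nn_le (ξ * α ^ (s i0).2) (s i0).1
      linarith [hdl0 i0]
    | succ k ih =>
      intro n hn1 hn2
      by_cases hni : n ≤ (s (i0 + k)).2
      · exact ih n hn1 hni
      have h5 : |ξ * α ^ (s (i0 + k + 1)).2 - (s (i0 + k + 1)).1| ≤ τ := hξ (i0 + k + 1)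
      have hn2' : n ≤ (s (i0 + k + 1)).2 := hn2
      rw [hs] at h5 hn2'
      have h6 := (h2 (s (i0 + k)).1 (i0 + k) _ h5).2.1
        ((s (i0 + k)).2 + Lg (s (i0 + k)).1 (i0 + k) - n) (by simp only at hn2'; omega)
      rw [hback _ _ _ (Nat.sub_le _ _), Nat.sub_sub_self hn2'] at h6
      have := hdlm i0 (i0 + k) (by omega)
      linarith
  have hge : ∀ i, i ≤ (s i).2 := by
    intro i; induction i with
    | zero => simp
    | succ i ih =>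
      rw [hs]; have := h1 (s i).1 i; simp only; omega
  have hpk : ∀ i : ℕ, ∃ n : ℕ, i ≤ n ∧ t - 2 * dl i ≤ nn (ξ * α ^ n) := by
    intro i
    have h5 : |ξ * α ^ (s (i+1)).2 - (s (i+1)).1| ≤ τ := hξ (i+1)
    rw [hs] at h5
    obtain ⟨j, hj, h6⟩ := (h2 (s i).1 i _ h5).2.2
    rw [hback _ _ _ (by simp only; omega)] at h6
    refine ⟨_, ?_, h6⟩
    have := hge i
    simp only; omega
  have hdls : ∀ ε : ℝ, 0 < ε → ∃ i : ℕ, 2 * dl i < ε := by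
    intro ε hε
    obtain ⟨i, hi⟩ := exists_nat_one_div_lt hε
    refine ⟨i, lt_of_le_of_lt ?_ hi⟩
    have h7 : 2 * dl i = 1 / (4 * ((i:ℝ) + 1)) := by
      simp only [dl]; field_simp; norm_num
    rw [h7]
    apply one_div_le_one_div_of_le (by positivity)
    have : (0:ℝ) ≤ i := Nat.cast_nonneg i
    linarith
  have hnn0 : ∀ x, 0 ≤ nn x := fun x => abs_nonneg _
  have hnnh : ∀ x, nn x ≤ 1 / 2 := fun x => abs_sub_round x
  apply le_antisymm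
  · apply le_of_forall_pos_le_add
    intro ε hε
    obtain ⟨i, hi⟩ := hdls ε hε
    refine Filter.limsup_le_of_le (Filter.isCoboundedUnder_le_of_le _ (x := 0) fun n => hnn0 _) ?_
    filter_upwards [Filter.eventually_ge_atTop (s i).2] with n hn
    have h8 := hup i n n hn ((Nat.le_add_left n i).trans (hge (i + n)))
    linarith
  · apply le_of_forall_pos_sub_le
    intro ε hε
    apply Filter.le_limsup_of_frequently_le
    · rw [Filter.frequently_atTop]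
      intro N
      obtain ⟨i, hi⟩ := hdls ε hε
      obtain ⟨n, hn1, hn2⟩ := hpk (max i N)
      refine ⟨n, (le_max_right _ _).trans hn1, ?_⟩
      have := hdlm i (max i N) (le_max_left _ _)
      linarith
    · exact Filter.isBoundedUnder_of ⟨1 / 2, fun n => hnnh _⟩

end Pool.Agent.Helper96.LC.LimAux

namespace Pool.Agent.Helper96.LC

theorem st_LIM (h : ST_STEER) (hB : ST_BLK) : ST_LIM := fun p q t hq hcop hpq ht3 ht hG =>
  LimAux.lim p q t h hB hq hcop hpq ht3 ht hG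

end Pool.Agent.Helper96.LC
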